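import Pool.Agent.TH747.HS.Typ

/-! The number of clusters of typical sums of exactly `K` elements, modulo `K`. -/

namespace Pool.Agent.TH747.HS

open Filter Pool.Agent.H645R2.HT Pool.Agent.TH747.HT

variable {V : Ultrafilter ℕ}

/-- Joining two words along their smallest letter, which is visible before the first word. -/
theorem cl_join_in {u w : List ℕ} {b : ℕ} (hu : ∀ y ∈ u, b ≤ y) :
    cl [b] (u ++ (b :: w)) = cl [b] u + cl [b] w := by
  rw [cl_append]
  simp only [cl]
  have h1 : b ∈ rv [b] u := mem_rv_of hu (Or.inr (by simp))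
  have h2 : (rv [b] u).filter (fun z => decide (z < b)) = [] := by
    rw [List.filter_eq_nil_iff]
    intro x hx
    simp only [decide_eq_true_eq]
    rcases rv_sub hx with h3 | h3
    · have := hu x h3
      omega
    · simp at h3
      omega
  rw [if_pos h1, h2]
  omega

/-- If the lower limit is `b`: the words of typical sums. -/
theorem cnt_fin (hV : FarU V) {y : ℕ → ℕ} {b : ℕ} (h1 : ∀ N, ∃ t, N < t ∧ y t = b)
    (h2 : ∃ N, ∀ t, N < t → b ≤ y t) {K r : ℕ}
    (hr : ∀ᶠ n in (V : Filter ℕ), cl [b] (wd y n) % K = r) (k : ℕ) :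
    Sm V (k + 1) (fun n => (∀ v ∈ wd y n, b ≤ v) ∧ cl [b] (wd y n) % K = ((k + 1) * r) % K ∧
      (0 < k → b ∈ wd y n)) := by
  obtain ⟨N, hN⟩ := h2
  have hge : ∀ n, N < la n → ∀ v ∈ wd y n, b ≤ v := by
    intro n hn v hv
    obtain ⟨t, ht, rfl⟩ := mem_wd hv
    exact hN t (by omega)
  induction k with
  | zero =>
    rw [Sm_one]
    filter_upwards [hr, hV N] with n hn hn'
    refine ⟨hge n hn'.2, ?_, fun h => absurd h (lt_irrefl _)⟩
    rw [zero_add, one_mul, hn]
    rw [← hn, Nat.mod_mod]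
  | succ k ih =>
    change ∀ᶠ a in (V : Filter ℕ), Sm V (k + 1) _
    filter_upwards [hr, hV N] with m hm hm'
    obtain ⟨t, ht, hyt⟩ := h1 (mu m)
    refine Sm_mono ?_ (Sm_and ih (Sm_far hV (k := k + 1) (by omega) (max t (mu m))))
    rintro n ⟨⟨i1, i2, i3⟩, hn0, hn⟩
    have hsep : Sep m n := by unfold Pool.Agent.H645R2.HT.Sep; omega
    have hmn : mn y (mu m) (la n) = b := by
      refine le_antisymm ?_ ?_
      · rw [← hyt]; exact mn_le ht (by omega)
      · obtain ⟨t', h3, _, h4⟩ := mn_mem (y := y) hsep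
        rw [h4]
        exact hN t' (by have := la_le_mu hm'.1; omega)
    rw [wd_add hm'.1 hn0 hsep, hmn, cl_join_in (hge m hm'.2)]
    refine ⟨?_, ?_, fun _ => by simp⟩
    · intro v hv
      rw [List.mem_append, List.mem_cons] at hv
      rcases hv with hv | rfl | hv
      · exact hge m hm'.2 v hv
      · exact le_rfl
      · exact i1 v hv
    · rw [Nat.add_mod, i2, hm, ← Nat.add_mod_right, show (k + 1 + 1) * r = r + (k + 1) * r by ring]
      simp [Nat.add_mod]

/-- If the lower limit is finite, the number of clusters is `1` modulo `K`. -/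
theorem ncl_fin (hV : FarU V) {y : ℕ → ℕ} {b : ℕ} (h1 : ∀ N, ∃ t, N < t ∧ y t = b)
    (h2 : ∃ N, ∀ t, N < t → b ≤ y t) {K : ℕ} (hK : 2 ≤ K) :
    Sm V K (fun n => ncl y n % K = 1) := by
  obtain ⟨r, -, hr⟩ := exists_const (U := V) (fun n => cl [b] (wd y n) % K) K
    (Eventually.of_forall fun n => Nat.mod_lt _ (by omega))
  obtain ⟨k, rfl⟩ : ∃ k, K = k + 1 := ⟨K - 1, by omega⟩
  refine Sm_mono ?_ (cnt_fin hV h1 h2 hr k)
  rintro n ⟨i1, i2, i3⟩
  have h3 := cl_merge (wd y n) [] [b] b (by simp) (by simp) i1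
  rw [if_pos (i3 (by omega))] at h3
  unfold ncl
  rw [h3, Nat.add_mod, i2, Nat.mul_mod_right, zero_add, Nat.mod_mod, Nat.mod_eq_of_lt (by omega)]

/-- If the sequence tends to infinity: the least value after a position. -/
theorem exists_gap {y : ℕ → ℕ} (h : ∀ B, ∃ N, ∀ t, N < t → B ≤ y t) (M : ℕ) :
    ∃ g N, ∀ q, N < q → mn y M q = g ∧ ∀ t, q < t → g < y t := by
  have hne : ∃ v, ∃ t, M < t ∧ y t = v := ⟨_, M + 1, by omega, rfl⟩
  classical
  obtain ⟨t, ht, hv⟩ := Nat.find_spec hne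
  have hmin : ∀ t, M < t → Nat.find hne ≤ y t := fun t ht => Nat.find_min' hne ⟨t, ht, rfl⟩
  generalize Nat.find hne = g at *
  obtain ⟨N, hN⟩ := h (g + 1)
  refine ⟨g, max N t, fun q hq => ⟨?_, fun t' ht' => hN t' (by omega)⟩⟩
  refine le_antisymm ?_ ?_
  · rw [← hv]; exact mn_le ht (by omega)
  · obtain ⟨t', h3, _, h4⟩ := mn_mem (y := y) (a := M) (b := q) (by omega)
    rw [h4]
    exact hmin t' h3

/-- Joining two words, the second one consisting of large letters. -/
theorem cl_far' {u w : List ℕ} {g : ℕ} (hw : ∀ y ∈ w, g < y) :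
    cl [] (u ++ (g :: w)) = cl [] (u ++ [g]) + cl [] w := by
  have e : u ++ (g :: w) = (u ++ [g]) ++ w := by simp
  rw [e, cl_append]
  congr 1
  refine cl_small w [] _ (rv [] (u ++ [g])) (by simp) ?_
  intro x hx y hy
  have h1 := hw y hy
  rw [rv_append] at hx
  simp only [rv, List.mem_cons, List.mem_filter, decide_eq_true_eq] at hx
  omega

theorem cl_snoc (u : List ℕ) (g : ℕ) : cl [] (u ++ [g]) = cl [] u ∨
    cl [] (u ++ [g]) = cl [] u + 1 := by
  rw [cl_append]
  simp only [cl]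
  split_ifs <;> omega

/-- If the sequence tends to infinity, the number of clusters is not `1` modulo `K`. -/
theorem ncl_inf (hV : FarU V) {y : ℕ → ℕ} (h : ∀ B, ∃ N, ∀ t, N < t → B ≤ y t) {K : ℕ}
    (hK : 3 ≤ K) : Sm V K (fun n => ncl y n % K ≠ 1) := by
  choose g N hg using exists_gap h
  obtain ⟨r, hr, hc⟩ := exists_const (U := V) (fun n => ncl y n % K) K
    (Eventually.of_forall fun n => Nat.mod_lt _ (by omega))
  obtain ⟨s, hs, hd⟩ := exists_const (U := V) (fun n => cl [] (wd y n ++ [g (mu n)]) % K) K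
    (Eventually.of_forall fun n => Nat.mod_lt _ (by omega))
  have key : ∀ k, Sm V (k + 1) (fun n => ncl y n % K = (k * s + r) % K) := by
    intro k
    induction k with
    | zero =>
      rw [Sm_one]
      filter_upwards [hc] with n hn
      rw [hn, zero_mul, zero_add, Nat.mod_eq_of_lt hr]
    | succ k ih =>
      change ∀ᶠ a in (V : Filter ℕ), Sm V (k + 1) _
      filter_upwards [hd, hV 0] with m hm hm0
      refine Sm_mono ?_ (Sm_and ih (Sm_far hV (k := k + 1) (by omega)
        (max (N (mu m)) (mu m))))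
      rintro n ⟨i1, hn0, hn⟩
      have hsep : Sep m n := by unfold Pool.Agent.H645R2.HT.Sep; omega
      obtain ⟨h1, h2⟩ := hg (mu m) (la n) (by omega)
      have e : ncl y (m + n) = cl [] (wd y m ++ [g (mu m)]) + ncl y n := by
        unfold ncl
        rw [wd_add hm0.1 hn0 hsep, h1]
        refine cl_far' fun v hv => ?_
        obtain ⟨t, ht, rfl⟩ := mem_wd hv
        exact h2 t ht
      rw [e, Nat.add_mod, hm, i1, show (k + 1) * s + r = s + (k * s + r) by ring]
      simp [Nat.add_mod]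
  -- the difference between the two constants
  obtain ⟨m, hm1, hm2⟩ := (hc.and hd).exists
  obtain ⟨k, rfl⟩ : ∃ k, K = k + 1 := ⟨K - 1, by omega⟩
  refine Sm_mono ?_ (key k)
  intro n hn
  rw [hn]
  have hsr : s = r ∨ s = (r + 1) % (k + 1) := by
    rcases cl_snoc (wd y m) (g (mu m)) with h3 | h3
    · left
      rw [← hm1, ← hm2, h3]
      rfl
    · right
      rw [← hm1, ← hm2, h3]
      simp [ncl]
  rcases hsr with rfl | rfl
  · rw [show k * s + s = (k + 1) * s by ring, Nat.mul_mod_right]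
    omega
  · have e1 : (k * ((r + 1) % (k + 1)) + r) % (k + 1) = (k * (r + 1) + r) % (k + 1) := by
      simp [Nat.add_mod, Nat.mul_mod]
    rw [e1, show k * (r + 1) + r = (k + 1) * r + k by ring, Nat.mul_add_mod,
      Nat.mod_eq_of_lt (by omega)]
    omega

/-- If the sequence does not tend to infinity, the number of clusters is `1` modulo `K`. -/
theorem ncl_fin' (hV : FarU V) {y : ℕ → ℕ} (h : ¬ ∀ B, ∃ N, ∀ t, N < t → B ≤ y t) {K : ℕ}
    (hK : 2 ≤ K) : Sm V K (fun n => ncl y n % K = 1) := by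
  classical
  push Not at h
  have h' : ∃ b, ∀ N, ∃ t, N < t ∧ y t ≤ b := by
    obtain ⟨B, hB⟩ := h
    exact ⟨B, fun N => by obtain ⟨t, h1, h2⟩ := hB N; exact ⟨t, h1, h2.le⟩⟩
  have h3 := Nat.find_spec h'
  have h4 : ∀ b' < Nat.find h', ∃ N, ∀ t, N < t → b' < y t := by
    intro b' hb'
    have := Nat.find_min h' hb'
    push Not at this
    exact this
  generalize Nat.find h' = b at h3 h4
  have h5 : ∃ N, ∀ t, N < t → b ≤ y t := by
    cases b with
    | zero => exact ⟨0, fun t _ => Nat.zero_le _⟩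
    | succ b =>
      obtain ⟨N, hN⟩ := h4 b (Nat.lt_succ_self b)
      exact ⟨N, fun t ht => hN t ht⟩
  refine ncl_fin hV (b := b) (fun N => ?_) h5 hK
  obtain ⟨N', hN'⟩ := h5
  obtain ⟨t, ht, hle⟩ := h3 (max N N')
  exact ⟨t, by omega, le_antisymm hle (hN' t (by omega))⟩

end Pool.Agent.TH747.HS
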