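import Pool.Agent.TH747.HT.Diag
import Pool.Agent.H645R2.HT.PartBc

/-! The diagonal colouring, second version: given decisions `D` of facts, a computable colouring
with two colours which separates `h + l` from `k + l` for suitable pairs `h, k` of elements. -/

namespace Pool.Agent.TH747.HS

open Encodable Filter Pool.Agent.H645R2.HT Pool.Agent.Helper446 Pool.Agent.Helper446.RE
  Pool.Agent.TH747.HT

/-- The test for the candidate `p`. -/
def tst (D : ℕ → ℕ → Bool) (e l : ℕ) (T : List ℕ) (p : ℕ) : Bool :=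
  D (Nat.pair e (Nat.pair (ph p) (pa p))) l && (D (Nat.pair e (Nat.pair (pk p) (pb p))) l &&
    (decide (0 < ph p) && (decide (mu (ph p) < la (pk p)) && (decide (mu (pk p) < la l) &&
      (!(decide (mu (ph p) ∈ T)) && !(decide (mu (pk p) ∈ T)))))))

variable {D : ℕ → ℕ → Bool}

theorem tst_iff {e l : ℕ} {T : List ℕ} {p : ℕ} : tst D e l T p = true ↔
    D (Nat.pair e (Nat.pair (ph p) (pa p))) l = true ∧
    D (Nat.pair e (Nat.pair (pk p) (pb p))) l = true ∧
    0 < ph p ∧ mu (ph p) < la (pk p) ∧ mu (pk p) < la l ∧ mu (ph p) ∉ T ∧ mu (pk p) ∉ T := by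
  unfold tst
  simp only [Bool.and_eq_true, decide_eq_true_eq, Bool.not_eq_true', decide_eq_false_iff_not]

/-- The positions taken by the requirements `< e`. -/
def TT (D : ℕ → ℕ → Bool) (l : ℕ) : ℕ → List ℕ
  | 0 => []
  | e + 1 => bif decide (lst (tst D e l (TT D l e)) (la l) < la l) then
      mu (ph (lst (tst D e l (TT D l e)) (la l))) ::
        mu (pk (lst (tst D e l (TT D l e)) (la l))) :: TT D l e else TT D l e

/-- The candidate used by requirement `e`. -/
def pick (D : ℕ → ℕ → Bool) (l e : ℕ) : ℕ := lst (tst D e l (TT D l e)) (la l)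

theorem TT_succ {l e : ℕ} : TT D l (e + 1) = bif decide (pick D l e < la l) then
    mu (ph (pick D l e)) :: mu (pk (pick D l e)) :: TT D l e else TT D l e := rfl

theorem TT_length {l e : ℕ} : (TT D l e).length ≤ 2 * e := by
  induction e with
  | zero => simp [TT]
  | succ e ih =>
    rw [TT_succ]
    cases decide (pick D l e < la l)
    · simp only [cond_false]; omega
    · simp only [cond_true, List.length_cons]; omega

theorem TT_mono {l e x : ℕ} (h : x ∈ TT D l e) : x ∈ TT D l (e + 1) := by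
  rw [TT_succ]
  cases decide (pick D l e < la l)
  · exact h
  · exact List.mem_cons_of_mem _ (List.mem_cons_of_mem _ h)

theorem TT_mono' {l e e' x : ℕ} (hee : e ≤ e') (h : x ∈ TT D l e) : x ∈ TT D l e' := by
  induction hee with
  | refl => exact h
  | step _ ih => exact TT_mono ih

theorem mem_TT_succ {l e : ℕ} (h : pick D l e < la l) :
    mu (ph (pick D l e)) ∈ TT D l (e + 1) ∧ mu (pk (pick D l e)) ∈ TT D l (e + 1) := by
  rw [TT_succ, decide_eq_true h]
  simp

theorem pick_tst {l e : ℕ} (h : pick D l e < la l) :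
    tst D e l (TT D l e) (pick D l e) = true := lst_of_lt h

theorem pick_pk_inj {l e e' : ℕ} (h : pick D l e < la l) (h' : pick D l e' < la l)
    (he : mu (pk (pick D l e)) = mu (pk (pick D l e'))) : e = e' := by
  rcases Nat.lt_trichotomy e e' with h1 | h1 | h1
  · have h2 := TT_mono' (show e + 1 ≤ e' from h1) (mem_TT_succ h).2
    rw [he] at h2
    exact absurd h2 (tst_iff.1 (pick_tst h')).2.2.2.2.2.2
  · exact h1
  · have h2 := TT_mono' (show e' + 1 ≤ e from h1) (mem_TT_succ h').2
    rw [← he] at h2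
    exact absurd h2 (tst_iff.1 (pick_tst h)).2.2.2.2.2.2

theorem pick_ph_ne {l e e' : ℕ} (h : pick D l e < la l) (h' : pick D l e' < la l) :
    mu (pk (pick D l e')) ≠ mu (ph (pick D l e)) := by
  intro he
  rcases Nat.lt_trichotomy e e' with h1 | h1 | h1
  · have h2 := TT_mono' (show e + 1 ≤ e' from h1) (mem_TT_succ h).1
    rw [← he] at h2
    exact absurd h2 (tst_iff.1 (pick_tst h')).2.2.2.2.2.2
  · subst h1
    have h3 := tst_iff.1 (pick_tst h)
    have h4 : 0 < pk (pick D l e) := by
      rw [Nat.pos_iff_ne_zero]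
      intro hc
      have h5 := h3.2.2.2.1
      rw [hc] at h5
      have : la 0 = 0 := by simp [la, L]
      omega
    have h5 := la_le_mu h4
    have h6 := h3.2.2.2.1
    omega
  · have h2 := TT_mono' (show e' + 1 ≤ e from h1) (mem_TT_succ h').2
    rw [he] at h2
    exact absurd h2 (tst_iff.1 (pick_tst h)).2.2.2.2.2.1

/-- The requirement acting at `(u, l)`. -/
def sel (D : ℕ → ℕ → Bool) (u l : ℕ) : ℕ :=
  lst (fun e => decide (pick D l e < la l) && decide (mu (pk (pick D l e)) = u)) (la l)

/-- The first sum used at `(u, l)`. -/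
def sh (D : ℕ → ℕ → Bool) (u l : ℕ) : ℕ := ph (pick D l (sel D u l)) + l

/-- The second sum used at `(u, l)`. -/
def sk (D : ℕ → ℕ → Bool) (u l : ℕ) : ℕ := pk (pick D l (sel D u l)) + l

/-- The value at `(u, l)`. -/
def GG (D : ℕ → ℕ → Bool) (cc : ℕ → Bool) (u l : ℕ) : Bool :=
  decide (sel D u l < la l) && !(xor (cc (sh D u l)) (cc (sk D u l)))

/-- The colour of `n`, restricted to the positions below `v`. -/
def CC (D : ℕ → ℕ → Bool) : ℕ → ℕ → Bool
  | 0, _ => false
  | v + 1, n => xor (CC D v n) (act v n && GG D (CC D v) (mu (n % 3 ^ v)) (n - n % 3 ^ v))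

theorem CC_succ {v n : ℕ} : CC D (v + 1) n = xor (CC D v n) (act v n &&
      GG D (CC D v) (mu (n % 3 ^ v)) (n - n % 3 ^ v)) := rfl

theorem CC_stable {n V : ℕ} (h : n ≤ V) : CC D V n = CC D n n := by
  induction h with
  | refl => rfl
  | @step m hm ih =>
    rw [CC_succ, ih]
    have h1 : dg m n = 0 := by
      by_contra hc
      have := dg_lt hc
      have h2 : n ≤ m := hm
      omega
    simp [act, h1]

theorem term_high {w l v : ℕ} (hl : 0 < l) (h : Sep w l) (hv : la l < v) (cc : ℕ → Bool) :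
    (act v (w + l) && GG D cc (mu ((w + l) % 3 ^ v)) ((w + l) - (w + l) % 3 ^ v)) =
    (act v l && GG D cc (mu (l % 3 ^ v)) (l - l % 3 ^ v)) := by
  have h1 := mod_pos hl hv
  have h2 := la_mod hl hv
  have h3 : Sep w (l % 3 ^ v) := by
    unfold Pool.Agent.H645R2.HT.Sep at *
    omega
  rw [add_mod_high hl h hv, mu_add h1 h3]
  have h4 : w + l - (w + l % 3 ^ v) = l - l % 3 ^ v := by omega
  rw [h4]
  have h5 : act v (w + l) = act v l := by
    unfold act
    rw [add_mod_high hl h hv]
    have h6 : dg v (w + l) = dg v l := by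
      unfold Pool.Agent.H645R2.HT.Sep at h
      have h7 : 3 ^ la l ∣ l := dvd_of_dg fun i hi => dg_of_lt_la hi
      have h8 : w < 3 ^ la l := lt_of_dg fun i hi => dg_of_mu_lt (by omega)
      obtain ⟨q, hq⟩ := h7
      have h9 := dg_add_high (q := q) h8 hv.le
      rw [← hq] at h9
      exact h9
    rw [h6, decide_eq_true h1, decide_eq_true (show 0 < w + l % 3 ^ v by omega)]
  rw [h5]

theorem CC_cong {w w' l V : ℕ} (hl : 0 < l) (h : Sep w l) (h' : Sep w' l)
    (hV : la l + 1 ≤ V) :
    xor (CC D V (w + l)) (CC D V (w' + l)) =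
      xor (CC D (la l + 1) (w + l)) (CC D (la l + 1) (w' + l)) := by
  induction hV with
  | refl => rfl
  | @step v hv ih =>
    rw [CC_succ, CC_succ, term_high hl h hv, term_high hl h' hv, ← ih]
    generalize (act v l && GG D (CC D v) (mu (l % 3 ^ v)) (l - l % 3 ^ v)) = a
    generalize CC D v (w + l) = b
    generalize CC D v (w' + l) = c
    cases a <;> cases b <;> cases c <;> rfl

theorem CC_at {w l : ℕ} (hw : 0 < w) (hl : 0 < l) (h : Sep w l) :
    CC D (la l + 1) (w + l) = xor (CC D (la l) (w + l)) (GG D (CC D (la l)) (mu w) l) := by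
  rw [CC_succ, add_mod_la hl h]
  have h1 : w + l - w = l := by omega
  rw [h1]
  have h2 : act (la l) (w + l) = true := by
    unfold act
    rw [add_mod_la hl h]
    have h6 : dg (la l) (w + l) = dg (la l) l := by
      unfold Pool.Agent.H645R2.HT.Sep at h
      have h7 : 3 ^ la l ∣ l := dvd_of_dg fun i hi => dg_of_lt_la hi
      have h8 : w < 3 ^ la l := lt_of_dg fun i hi => dg_of_mu_lt (by omega)
      obtain ⟨q, hq⟩ := h7
      have h9 := dg_add_high (q := q) h8 le_rfl
      rw [← hq] at h9
      exact h9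
    rw [h6, decide_eq_true hw, decide_eq_true (mem_L.1 (la_mem hl))]
    rfl
  rw [h2, Bool.true_and]

/-- The colouring. -/
def col (D : ℕ → ℕ → Bool) (n : ℕ) : Bool := CC D n n

/-- A picked candidate gives two sums of different colours. -/
theorem col_ne {l e : ℕ} (hl : 0 < l) (he : e < la l) (h : pick D l e < la l) :
    col D (ph (pick D l e) + l) ≠ col D (pk (pick D l e) + l) := by
  obtain ⟨-, -, t1, t2, t3, -, -⟩ := tst_iff.1 (pick_tst h)
  have hph : GG D (CC D (la l)) (mu (ph (pick D l e))) l = false := by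
    unfold GG
    rw [Bool.and_eq_false_iff]
    left
    rw [decide_eq_false_iff_not]
    intro h1
    have h2 := lst_of_lt h1
    rw [Bool.and_eq_true, decide_eq_true_eq, decide_eq_true_eq] at h2
    exact pick_ph_ne h h2.1 h2.2
  have hpk : GG D (CC D (la l)) (mu (pk (pick D l e))) l =
      !(xor (CC D (la l) (ph (pick D l e) + l)) (CC D (la l) (pk (pick D l e) + l))) := by
    have h1 : sel D (mu (pk (pick D l e))) l < la l :=
      (lst_lt_of (i := e) he (by
        rw [Bool.and_eq_true, decide_eq_true_eq, decide_eq_true_eq]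
        exact ⟨h, rfl⟩)).2.1
    have h2 := lst_of_lt h1
    rw [Bool.and_eq_true, decide_eq_true_eq, decide_eq_true_eq] at h2
    have h3 : sel D (mu (pk (pick D l e))) l = e := pick_pk_inj h2.1 h h2.2
    unfold GG sh sk
    rw [decide_eq_true h1, Bool.true_and, h3]
  generalize pick D l e = p at *
  have hk0 : 0 < pk p := by
    rw [Nat.pos_iff_ne_zero]
    intro hc
    rw [hc] at t2
    have : la 0 = 0 := by simp [la, L]
    omega
  have hmk := la_le_mu hk0
  have s2 : Sep (pk p) l := t3
  have s3 : Sep (ph p) l := sep_trans hk0 t2 t3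
  intro hc
  unfold col at hc
  have hlal : la l < l := dg_lt (mem_L.1 (la_mem hl))
  have c0 : CC D (ph p + l + pk p) (ph p + l) = CC D (ph p + l) (ph p + l) :=
    CC_stable (by omega)
  have c1 : CC D (ph p + l + pk p) (pk p + l) = CC D (pk p + l) (pk p + l) :=
    CC_stable (by omega)
  rw [← c1, ← c0] at hc
  have c2 := CC_cong (D := D) (V := ph p + l + pk p) hl s3 s2 (by omega)
  rw [hc, CC_at t1 hl s3, CC_at hk0 hl s2, hph, hpk] at c2
  revert c2
  generalize CC D (la l) (ph p + l) = a
  generalize CC D (la l) (pk p + l) = b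
  generalize CC D (ph p + l + pk p) (pk p + l) = c
  cases a <;> cases b <;> cases c <;> decide

section comp

variable {α : Type*} [Primcodable α]

theorem c_tst (hD : Computable fun x : ℕ × ℕ => D x.1 x.2) {e l : α → ℕ} {T : α → List ℕ}
    {p : α → ℕ} (he : Computable e) (hl : Computable l) (hT : Computable T)
    (hp : Computable p) : Computable fun a => tst D (e a) (l a) (T a) (p a) := by
  have h1 : Computable fun a => D (Nat.pair (e a) (Nat.pair (ph (p a)) (pa (p a)))) (l a) :=
    hD.comp (g := fun a => (Nat.pair (e a) (Nat.pair (ph (p a)) (pa (p a))), l a)) (by fun_prop)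
  have h2 : Computable fun a => D (Nat.pair (e a) (Nat.pair (pk (p a)) (pb (p a)))) (l a) :=
    hD.comp (g := fun a => (Nat.pair (e a) (Nat.pair (pk (p a)) (pb (p a))), l a)) (by fun_prop)
  unfold tst
  exact cand h1 (cand h2 (cand (c_dlt (by fun_prop) (by fun_prop)) (cand
    (c_dlt (by fun_prop) (by fun_prop)) (cand (c_dlt (by fun_prop) (by fun_prop)) (cand
    (cnot (c_mem (by fun_prop) hT)) (cnot (c_mem (by fun_prop) hT)))))))

theorem c_TT (hD : Computable fun x : ℕ × ℕ => D x.1 x.2) {l e : α → ℕ} (hl : Computable l)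
    (he : Computable e) : Computable fun a => TT D (l a) (e a) := by
  have h1 : Computable fun x : α × (ℕ × List ℕ) =>
      lst (tst D x.2.1 (l x.1) x.2.2) (la (l x.1)) := by
    refine c_lst (q := fun (x : α × (ℕ × List ℕ)) c => tst D x.2.1 (l x.1) x.2.2 c) ?_
      (by fun_prop)
    exact c_tst hD (by fun_prop) (by fun_prop) (by fun_prop) (by fun_prop)
  have h := Computable.nat_rec (f := e) (g := fun _ : α => ([] : List ℕ))
    (h := fun (a : α) (y : ℕ × List ℕ) =>
      bif decide (lst (tst D y.1 (l a) y.2) (la (l a)) < la (l a)) then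
      mu (ph (lst (tst D y.1 (l a) y.2) (la (l a)))) ::
        mu (pk (lst (tst D y.1 (l a) y.2) (la (l a)))) :: y.2 else y.2) he (Computable.const _)
    (show Computable fun x : α × (ℕ × List ℕ) =>
      bif decide (lst (tst D x.2.1 (l x.1) x.2.2) (la (l x.1)) < la (l x.1)) then
      mu (ph (lst (tst D x.2.1 (l x.1) x.2.2) (la (l x.1)))) ::
        mu (pk (lst (tst D x.2.1 (l x.1) x.2.2) (la (l x.1)))) :: x.2.2 else x.2.2 from
      ccond (c_dlt h1 (by fun_prop)) (by fun_prop) (by fun_prop))
  refine h.of_eq fun a => ?_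
  generalize e a = n
  induction n with
  | zero => rfl
  | succ n ih => simp only [TT]; rw [← ih]

theorem c_pick (hD : Computable fun x : ℕ × ℕ => D x.1 x.2) {l e : α → ℕ} (hl : Computable l)
    (he : Computable e) : Computable fun a => pick D (l a) (e a) := by
  unfold pick
  refine c_lst (q := fun (a : α) c => tst D (e a) (l a) (TT D (l a) (e a)) c) ?_ (by fun_prop)
  refine c_tst hD (by fun_prop) (by fun_prop) ?_ (by fun_prop)
  exact (c_TT hD hl he).comp Computable.fst

theorem c_sel (hD : Computable fun x : ℕ × ℕ => D x.1 x.2) {u l : α → ℕ}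
    (hu : Computable u) (hl : Computable l) : Computable fun a => sel D (u a) (l a) := by
  unfold sel
  refine c_lst (q := fun (a : α) e => decide (pick D (l a) e < la (l a)) &&
    decide (mu (pk (pick D (l a) e)) = u a)) ?_ (by fun_prop)
  have h1 : Computable fun y : α × ℕ => pick D (l y.1) y.2 :=
    c_pick hD (hl.comp Computable.fst) Computable.snd
  exact cand (c_dlt (by fun_prop) (by fun_prop)) (c_deq (by fun_prop) (by fun_prop))

end comp

theorem c_col (hD : Computable fun x : ℕ × ℕ => D x.1 x.2) : Computable (col D) := by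
  have hm : Computable fun y : ℕ × ℕ => y.2 % 3 ^ y.1 :=
    c_mod (by fun_prop) (c_pow3 (by fun_prop))
  have htop : Computable fun y : ℕ × ℕ => y.2 - y.2 % 3 ^ y.1 := by fun_prop
  have hsel : Computable fun y : ℕ × ℕ => sel D (mu (y.2 % 3 ^ y.1)) (y.2 - y.2 % 3 ^ y.1) :=
    c_sel hD (by fun_prop) htop
  have hpick := c_pick hD htop hsel
  have key := comp_rec3 (F := fun y : (ℕ × ℕ) × (Bool × Bool × Bool) =>
      xor y.2.1 (act y.1.1 y.1.2 &&
        (decide (sel D (mu (y.1.2 % 3 ^ y.1.1)) (y.1.2 - y.1.2 % 3 ^ y.1.1) <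
          la (y.1.2 - y.1.2 % 3 ^ y.1.1)) && !(xor y.2.2.1 y.2.2.2))))
    (p := fun y => sh D (mu (y.2 % 3 ^ y.1)) (y.2 - y.2 % 3 ^ y.1))
    (q := fun y => sk D (mu (y.2 % 3 ^ y.1)) (y.2 - y.2 % 3 ^ y.1))
    (A := fun v m => CC D v m) ?_ ?_ ?_ (fun m => rfl) ?_
  · exact key.comp (g := fun n : ℕ => (n, n)) (by fun_prop)
  · have a1 : Computable fun y : (ℕ × ℕ) × (Bool × Bool × Bool) => act y.1.1 y.1.2 := by
      unfold act
      refine cand (cdecide (RE.cp_eq (f := fun y : (ℕ × ℕ) × (Bool × Bool × Bool) =>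
        dg y.1.1 y.1.2) (g := fun _ => 0) (by fun_prop) (by fun_prop)).not) ?_
      exact c_dlt (f := fun _ => 0) (g := fun y : (ℕ × ℕ) × (Bool × Bool × Bool) =>
        y.1.2 % 3 ^ y.1.1) (by fun_prop) (hm.comp Computable.fst)
    have a2 : Computable fun y : (ℕ × ℕ) × (Bool × Bool × Bool) =>
        decide (sel D (mu (y.1.2 % 3 ^ y.1.1)) (y.1.2 - y.1.2 % 3 ^ y.1.1) <
          la (y.1.2 - y.1.2 % 3 ^ y.1.1)) :=
      c_dlt (hsel.comp Computable.fst)
        ((c_la htop).comp (g := fun y : (ℕ × ℕ) × (Bool × Bool × Bool) => y.1) Computable.fst)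
    fun_prop
  · unfold sh
    fun_prop
  · unfold sk
    fun_prop
  · intro v m
    rfl

end Pool.Agent.TH747.HS
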