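import Pool.Agent.TH747.HS.MainK
import Pool.Agent.TH747.HS.ClusK
import Pool.Agent.TH747.HT.Pi3
import Pool.Agent.H19R3.DNC

/-! Solutions compute a function which is diagonally noncomputable relative to `0'''`. -/

namespace Pool.Agent.TH747.HS

open Encodable Filter Pool.Agent.H645R2.HT Pool.Agent.Helper446 Pool.Agent.Helper446.RE
  Pool.Agent.Helper446.Oracle
open Pool.Agent.TH747.HT hiding dl el c_dl c_el

/-- The decision of `Π⁰₃` facts by the number of clusters modulo `K`. -/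
def D3k (W : ℕ → ℕ → Bool) (K z l : ℕ) : Bool := decide (ncl (yy W z) l % K ≠ 1)

theorem limDec {W : ℕ → ℕ → Bool} (hW : Mon W) {V : Ultrafilter ℕ} (hV : FarU V) {K : ℕ}
    (hK : 3 ≤ K) (z : ℕ) : Sm V K (fun l => (D3k W K z l = true ↔ Psi W z)) := by
  by_cases h : ∀ B, ∃ N, ∀ t, N < t → B ≤ yy W z t
  · have h1 := (Psi_iff hW z).2 h
    refine Sm_mono ?_ (ncl_inf hV h hK)
    intro l hl
    simp [D3k, hl, h1]
  · have h1 : ¬ Psi W z := fun h' => h ((Psi_iff hW z).1 h')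
    refine Sm_mono ?_ (ncl_fin' hV h (K := K) (by omega))
    intro l hl
    simp [D3k, hl, h1]

theorem c_D3k {W : ℕ → ℕ → Bool} (hW : Computable fun q : ℕ × ℕ => W q.1 q.2) (K : ℕ) :
    Computable fun x : ℕ × ℕ => D3k W K x.1 x.2 := by
  have h1 : Computable fun x : ℕ × ℕ => ncl (yy W x.1) x.2 := by
    unfold ncl
    exact c_cl (c_wd (y := fun (x : ℕ × ℕ) t => yy W x.1 t) (c_yy hW (by fun_prop) (by fun_prop))
      (by fun_prop))
  have h2 : Computable fun x : ℕ × ℕ => !(decide (ncl (yy W x.1) x.2 % K = 1)) :=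
    cnot (c_deq (c_mod h1 (by fun_prop)) (by fun_prop))
  refine h2.of_eq fun x => ?_
  unfold D3k
  rw [decide_not]

/-- The `Σ⁰₄` relation presented by `R`. -/
def Sig4 (R : ℕ → ℕ → ℕ → ℕ → ℕ → ℕ → Bool) (q m : ℕ) : Prop :=
  ∃ a, ∀ b, ∃ t, ∀ u, R q m a b t u = true

theorem Psi_W0 (z : ℕ) : Psi W0 z ↔ ∀ b, ∃ c, ¬ ∃ s, W0 s (ix z b c) = true := by
  unfold Psi
  refine forall_congr' fun b => exists_congr fun c => ?_
  push Not
  refine forall_congr' fun s => ?_
  rw [ne_eq, Bool.not_eq_true]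

open Pool.Agent.H19R3.DNC (idx c_idx idx_iff dl el c_dl c_el) in
/-- The index of the union of the sets coded by the elements of the section. -/
theorem exists_index {R : ℕ → ℕ → ℕ → ℕ → ℕ → ℕ → Bool}
    (hR : Computable fun x : ℕ × ℕ × ℕ × ℕ × ℕ × ℕ =>
      R x.1 x.2.1 x.2.2.1 x.2.2.2.1 x.2.2.2.2.1 x.2.2.2.2.2) :
    ∃ e, ∀ q n, (∃ a, Psi W0 (Nat.pair (idx e q) (Nat.pair n a))) ↔
      ∃ m, Sig4 R q m ∧ n ∈ dl m := by
  -- `w = ⟨q, ⟨⟨n, ⟨m, a⟩⟩, ⟨b, c⟩⟩⟩`
  have h1 : REPred fun w : ℕ => ∃ u,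
      (R w.unpair.1 w.unpair.2.unpair.1.unpair.2.unpair.1
        w.unpair.2.unpair.1.unpair.2.unpair.2 w.unpair.2.unpair.2.unpair.1
        w.unpair.2.unpair.2.unpair.2 u = false ∨
      w.unpair.2.unpair.1.unpair.1 ∉ dl w.unpair.2.unpair.1.unpair.2.unpair.1) := by
    refine RE.exN (p := fun (w : ℕ) u =>
      (R w.unpair.1 w.unpair.2.unpair.1.unpair.2.unpair.1
        w.unpair.2.unpair.1.unpair.2.unpair.2 w.unpair.2.unpair.2.unpair.1
        w.unpair.2.unpair.2.unpair.2 u = false ∨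
      w.unpair.2.unpair.1.unpair.1 ∉ dl w.unpair.2.unpair.1.unpair.2.unpair.1)) ?_
    refine RE.or (RE.eq ?_ (by fun_prop)) ?_
    · exact hR.comp (g := fun x : ℕ × ℕ => (x.1.unpair.1,
        x.1.unpair.2.unpair.1.unpair.2.unpair.1, x.1.unpair.2.unpair.1.unpair.2.unpair.2,
        x.1.unpair.2.unpair.2.unpair.1, x.1.unpair.2.unpair.2.unpair.2, x.2)) (by fun_prop)
    · refine RE.not_mem_list (f := fun x : ℕ × ℕ => x.1.unpair.2.unpair.1.unpair.1)
        (l := fun x : ℕ × ℕ => dl x.1.unpair.2.unpair.1.unpair.2.unpair.1) (by fun_prop) ?_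
      exact c_dl.comp (by fun_prop)
  obtain ⟨e, he⟩ := univ_W0 h1
  refine ⟨e, fun q n => ?_⟩
  have key : ∀ a, Psi W0 (Nat.pair (idx e q) (Nat.pair n a)) ↔ ∀ b, ∃ c,
      (∀ u, R q a.unpair.1 a.unpair.2 b c u = true) ∧ n ∈ dl a.unpair.1 := by
    intro a
    rw [Psi_W0]
    refine forall_congr' fun b => exists_congr fun c => ?_
    unfold ix
    simp only [Nat.unpair_pair]
    rw [idx_iff, ← he]
    simp only [Nat.unpair_pair]
    push Not
    constructor
    · intro h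
      refine ⟨fun u => ?_, (h 0).2⟩
      have := (h u).1
      simpa using this
    · rintro ⟨h2, h3⟩ u
      refine ⟨?_, h3⟩
      simp [h2 u]
  unfold Sig4
  constructor
  · rintro ⟨a, ha⟩
    rw [key] at ha
    refine ⟨a.unpair.1, ⟨a.unpair.2, fun b => ?_⟩, ?_⟩
    · obtain ⟨c, hc, -⟩ := ha b
      exact ⟨c, hc⟩
    · obtain ⟨c, -, hc⟩ := ha 0
      exact hc
  · rintro ⟨m, ⟨a, ha⟩, hn⟩
    refine ⟨Nat.pair m a, ?_⟩
    rw [key]
    intro b
    obtain ⟨t, ht⟩ := ha b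
    refine ⟨t, ?_⟩
    simp only [Nat.unpair_pair]
    exact ⟨ht, hn⟩

section

open Pool.Agent.H19R3.DNC (idx c_idx idx_iff dl el c_dl c_el Good)

theorem exists_good {Y : Set ℕ} (hp : 0 ∉ Y) (hY : ∀ N, ∃ x ∈ Y, 3 ^ N ∣ x) (N : ℕ) :
    ∃ m, Good Y N m := by
  obtain ⟨f, hf1, hf2⟩ := exists_chain hp hY
  refine ⟨encode ((List.range (N + 2)).map f), ?_⟩
  have h1 : dl (encode ((List.range (N + 2)).map f)) = (List.range (N + 2)).map f := by
    unfold dl; rw [encodek]; rfl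
  have h2 : ∀ i < N + 2, el (encode ((List.range (N + 2)).map f)) i = f i := by
    intro i hi
    unfold el
    rw [h1, List.getElem?_map, List.getElem?_range hi]
    rfl
  refine ⟨by rw [h1]; simp, fun i hi => by rw [h2 i hi]; exact hf1 i, fun i hi => ?_⟩
  rw [h2 i (by omega), h2 (i + 1) (by omega)]
  exact hf2 i

variable {α : Type*} [Primcodable α] {A Y : Set ℕ}

theorem re_good (r1 : REIn A fun n : ℕ => n ∈ Y) {N m : α → ℕ} (hN : Computable N)
    (hm : Computable m) : REIn A fun a => Good Y (N a) (m a) := by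
  unfold Good
  refine REIn.and (REIn.of_re (RE.eq ?_ (by fun_prop))) (REIn.and ?_ ?_)
  · have h1 : Computable fun a => dl (m a) := c_dl.comp hm
    fun_prop
  · refine REIn.all_lt (S := fun a i => el (m a) i ∈ Y) ?_ (by fun_prop)
    exact r1.comp (f := fun x : α × ℕ => el (m x.1) x.2)
      (c_el (hm.comp Computable.fst) Computable.snd)
  · refine REIn.all_lt (S := fun a i => Sep (el (m a) i) (el (m a) (i + 1))) ?_ (by fun_prop)
    refine REIn.of_re ?_
    unfold Pool.Agent.H645R2.HT.Sep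
    exact RE.lt (c_mu (c_el (hm.comp Computable.fst) Computable.snd))
      (c_la (c_el (hm.comp Computable.fst) (by fun_prop)))

theorem re_not_good (r2 : REIn A fun n : ℕ => n ∉ Y) {N m : α → ℕ} (hN : Computable N)
    (hm : Computable m) : REIn A fun a => ¬ Good Y (N a) (m a) := by
  have h1 : Computable fun a => dl (m a) := c_dl.comp hm
  have key : REIn A fun a => (dl (m a)).length < N a + 2 ∨ (N a + 2 < (dl (m a)).length ∨
      ((∃ i, i < N a + 2 ∧ el (m a) i ∉ Y) ∨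
        ∃ i, i < N a + 1 ∧ la (el (m a) (i + 1)) < mu (el (m a) i) + 1)) := by
    refine REIn.or (REIn.of_re (RE.lt (by fun_prop) (by fun_prop))) (REIn.or
      (REIn.of_re (RE.lt (by fun_prop) (by fun_prop))) (REIn.or ?_ ?_))
    · refine REIn.ex (S := fun a i => i < N a + 2 ∧ el (m a) i ∉ Y) ?_
      refine REIn.and (REIn.of_re (RE.lt (by fun_prop) ?_)) ?_
      · exact (show Computable fun a => N a + 2 by fun_prop).comp Computable.fst
      · exact r2.comp (f := fun x : α × ℕ => el (m x.1) x.2)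
          (c_el (hm.comp Computable.fst) Computable.snd)
    · refine REIn.ex (S := fun a i => i < N a + 1 ∧
        la (el (m a) (i + 1)) < mu (el (m a) i) + 1) ?_
      refine REIn.and (REIn.of_re (RE.lt (by fun_prop) ?_)) (REIn.of_re ?_)
      · exact (show Computable fun a => N a + 1 by fun_prop).comp Computable.fst
      · have e1 : Computable fun x : α × ℕ => mu (el (m x.1) x.2) :=
          c_mu (c_el (hm.comp Computable.fst) Computable.snd)
        exact RE.lt (c_la (c_el (hm.comp Computable.fst) (by fun_prop))) (by fun_prop)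
  refine key.of_eq fun a => ?_
  unfold Good Pool.Agent.H645R2.HT.Sep
  constructor
  · rintro (h | h | ⟨i, hi, h⟩ | ⟨i, hi, h⟩) ⟨h1, h2, h3⟩
    · omega
    · omega
    · exact h (h2 i hi)
    · have := h3 i hi
      omega
  · intro h
    by_contra hc
    push Not at hc
    obtain ⟨c1, c2, c3, c4⟩ := hc
    refine h ⟨by omega, fun i hi => c3 i hi, fun i hi => ?_⟩
    have := c4 i hi
    omega

/-- Solutions compute, for every `Σ⁰₄` relation, a function avoiding all single-valued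
sections. -/
theorem dnc {k : ℕ} (hk : 3 ≤ k) {V : Ultrafilter ℕ} (hV : FarU V) (hp : 0 ∉ Y)
    (hY : ∀ N, ∃ x ∈ Y, 3 ^ N ∣ x)
    (hc : ∃ i, ∀ h ∈ Y, Sm V k (fun l => col (D3k W0 k) (h + l) = i))
    (r1 : REIn A fun n : ℕ => n ∈ Y) (r2 : REIn A fun n : ℕ => n ∉ Y)
    {R : ℕ → ℕ → ℕ → ℕ → ℕ → ℕ → Bool}
    (hR : Computable fun x : ℕ × ℕ × ℕ × ℕ × ℕ × ℕ =>
      R x.1 x.2.1 x.2.2.1 x.2.2.2.1 x.2.2.2.2.1 x.2.2.2.2.2) :
    ∃ f : ℕ → ℕ, REIn A (fun x : ℕ × ℕ => f x.1 = x.2) ∧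
      ∀ q, ¬ ∀ m, Sig4 R q m ↔ m = f q := by
  classical
  obtain ⟨e, he⟩ := exists_index hR
  have hex : ∀ q, ∃ m, Good Y (4 * idx e q) m := fun q => exists_good hp hY _
  have hidx : ∀ {β : Type} [Primcodable β] {f : β → ℕ}, Computable f →
      Computable fun b => 4 * idx e (f b) := by
    intro β _ f hf
    have := c_idx e hf
    fun_prop
  refine ⟨fun q => Nat.find (hex q), ?_, ?_⟩
  · have h1 : REIn A fun x : ℕ × ℕ => Good Y (4 * idx e x.1) x.2 ∧
        ∀ i < x.2, ¬ Good Y (4 * idx e x.1) i := by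
      refine REIn.and (re_good r1 (hidx (by fun_prop)) (by fun_prop)) ?_
      refine REIn.all_lt (S := fun (x : ℕ × ℕ) i => ¬ Good Y (4 * idx e x.1) i) ?_ (by fun_prop)
      exact re_not_good r2 (N := fun x : (ℕ × ℕ) × ℕ => 4 * idx e x.1.1)
        (m := fun x : (ℕ × ℕ) × ℕ => x.2) (hidx (by fun_prop)) (by fun_prop)
    refine h1.of_eq fun x => ?_
    constructor
    · rintro ⟨h2, h3⟩
      exact (Nat.find_eq_iff _).2 ⟨h2, h3⟩
    · intro h2
      exact (Nat.find_eq_iff _).1 h2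
  · intro q hq
    obtain ⟨h1, h2, h3⟩ := Nat.find_spec (hex q)
    dsimp only at hq
    generalize Nat.find (hex q) = m at *
    have hmem : ∀ n, (∃ a, Psi W0 (Nat.pair (idx e q) (Nat.pair n a))) ↔ n ∈ dl m := by
      intro n
      rw [he q n]
      constructor
      · rintro ⟨m', hm', hn⟩
        rw [(hq m').1 hm'] at hn
        exact hn
      · intro hn
        exact ⟨m, (hq m).2 rfl, hn⟩
    have hel : ∀ i < 4 * idx e q + 2, el m i ∈ dl m := by
      intro i hi
      unfold el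
      rw [List.getElem?_eq_getElem (by omega)]
      exact List.getElem_mem _
    refine no_chain (k := k) (by omega) hV (limDec mon_W0 hV hk) hp hc (idx e q) ?_ (el m) ?_ ?_
    · intro n hn
      obtain ⟨i, hi, rfl⟩ := List.getElem_of_mem ((hmem n).1 hn)
      have h4 := h2 i (by omega)
      unfold el at h4
      rwa [List.getElem?_eq_getElem hi] at h4
    · intro i hi
      exact (hmem _).2 (hel i (by omega))
    · intro i hi
      exact h3 i (by omega)

/-- Solutions are not `Σ⁰₄`. -/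
theorem no_sigma4 {k : ℕ} (hk : 3 ≤ k) {V : Ultrafilter ℕ} (hV : FarU V) (hp : 0 ∉ Y)
    (hY : ∀ N, ∃ x ∈ Y, 3 ^ N ∣ x)
    (hc : ∃ i, ∀ h ∈ Y, Sm V k (fun l => col (D3k W0 k) (h + l) = i))
    {R : ℕ → ℕ → ℕ → ℕ → ℕ → Bool}
    (hR : Computable fun x : ℕ × ℕ × ℕ × ℕ × ℕ =>
      R x.1 x.2.1 x.2.2.1 x.2.2.2.1 x.2.2.2.2) :
    Y ≠ {n | ∃ a, ∀ b, ∃ t, ∀ u, R n a b t u = true} := by
  intro hYR
  have h1 : REPred fun w : ℕ => ∃ u, R w.unpair.1.unpair.1 w.unpair.1.unpair.2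
      w.unpair.2.unpair.1 w.unpair.2.unpair.2 u = false := by
    refine RE.exN (p := fun (w : ℕ) u => R w.unpair.1.unpair.1 w.unpair.1.unpair.2
      w.unpair.2.unpair.1 w.unpair.2.unpair.2 u = false) ?_
    refine RE.eq ?_ (by fun_prop)
    exact hR.comp (g := fun x : ℕ × ℕ => (x.1.unpair.1.unpair.1,
      x.1.unpair.1.unpair.2, x.1.unpair.2.unpair.1, x.1.unpair.2.unpair.2, x.2)) (by fun_prop)
  obtain ⟨e, he⟩ := univ_W0 h1
  refine no_solution (k := k) (by omega) hV (limDec mon_W0 hV hk) hp hY hc e fun n => ?_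
  have h2 : n ∈ Y ↔ ∃ a, ∀ b, ∃ t, ∀ u, R n a b t u = true := by rw [hYR]; rfl
  rw [h2]
  refine exists_congr fun a => ?_
  rw [Psi_W0]
  refine forall_congr' fun b => exists_congr fun c => ?_
  unfold ix
  simp only [Nat.unpair_pair]
  rw [← he]
  simp only [Nat.unpair_pair]
  push Not
  refine forall_congr' fun u => ?_
  simp

end

end Pool.Agent.TH747.HS
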