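import Pool.Agent.TH747.HS.DncK

/-! The set of finite sums of a set: decidability relative to the set, and homogeneity. -/

namespace Pool.Agent.TH747.HS

open Encodable Filter Pool.Agent.H645R2.HT Pool.Agent.Helper446 Pool.Agent.Helper446.RE
  Pool.Agent.Helper446.Oracle
open Pool.Agent.TH747.HT hiding dl el c_dl c_el

/-- All sums of nonempty finite subsets. -/
def FS (X : Set ℕ) : Set ℕ :=
  {n | ∃ F : Finset ℕ, F.Nonempty ∧ (F : Set ℕ) ⊆ X ∧ ∑ x ∈ F, x = n}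

variable {X : Set ℕ}

/-- The code `g` describes `n` as an element of `FS X`. -/
def Cod (X : Set ℕ) (n g : ℕ) : Prop := 0 < (L g).length ∧ (∀ x ∈ L g, x ∈ X) ∧ (L g).sum = n

theorem mem_FS_of {n g : ℕ} (h : Cod X n g) : n ∈ FS X := by
  obtain ⟨h1, h2, h3⟩ := h
  refine ⟨(L g).toFinset, ?_, ?_, ?_⟩
  · rw [List.toFinset_nonempty_iff]
    rintro hc
    rw [hc] at h1
    exact absurd h1 (by simp)
  · intro x hx
    exact h2 x (by simpa using hx)
  · rw [← sum_L, h3]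

theorem exists_cod {n : ℕ} (h : n ∈ FS X) : ∃ g, g < 3 ^ (n + 1) ∧ Cod X n g := by
  obtain ⟨F, h1, h2, h3⟩ := h
  obtain ⟨g, hg⟩ := exists_code F
  have hG : (L g).toFinset = F := by
    ext x
    rw [List.mem_toFinset, hg]
  have hs : (L g).sum = n := by rw [sum_L, hG, h3]
  refine ⟨g, ?_, ?_, fun x hx => h2 ((hg x).1 hx), hs⟩
  · refine lt_of_dg fun i hi => ?_
    by_contra hc
    have h4 : i ∈ F := (hg i).1 (mem_L.2 hc)
    have h5 := Finset.single_le_sum (f := fun x : ℕ => x) (fun _ _ => Nat.zero_le _) h4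
    simp only [h3] at h5
    omega
  · obtain ⟨x, hx⟩ := h1
    exact List.length_pos_of_mem ((hg x).2 hx)

theorem re_cod {α : Type*} [Primcodable α] {n g : α → ℕ} (hn : Computable n)
    (hg : Computable g) : REIn X fun a => Cod X (n a) (g a) := by
  unfold Cod
  refine REIn.and (REIn.of_re (RE.lt (by fun_prop) (by fun_prop))) (REIn.and ?_
    (REIn.of_re (RE.eq (c_sum (by fun_prop)) hn)))
  exact REIn.all_mem (S := fun (_ : α) (x : ℕ) => x ∈ X) (REIn.mem Computable.snd) (by fun_prop)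

theorem re_not_cod {α : Type*} [Primcodable α] {n g : α → ℕ} (hn : Computable n)
    (hg : Computable g) : REIn X fun a => ¬ Cod X (n a) (g a) := by
  have key : REIn X fun a => (L (g a)).length < 1 ∨ ((∃ x, x ∈ L (g a) ∧ x ∉ X) ∨
      (L (g a)).sum ≠ n a) := by
    refine REIn.or (REIn.of_re (RE.lt (by fun_prop) (by fun_prop))) (REIn.or ?_
      (REIn.of_re (RE.ne (c_sum (by fun_prop)) hn)))
    refine REIn.ex (S := fun (a : α) (x : ℕ) => x ∈ L (g a) ∧ x ∉ X) ?_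
    refine REIn.and (REIn.of_re (RE.mem_list Computable.snd (by fun_prop))) ?_
    exact REIn.not_mem Computable.snd
  refine key.of_eq fun a => ?_
  unfold Cod
  constructor
  · rintro (h | ⟨x, h1, h2⟩ | h) ⟨h3, h4, h5⟩
    · omega
    · exact h2 (h4 x h1)
    · exact h h5
  · intro h
    by_contra hc
    push Not at hc
    exact h ⟨by omega, hc.2.1, hc.2.2⟩

theorem re_FS : REIn X fun n : ℕ => n ∈ FS X := by
  have h : REIn X fun n : ℕ => ∃ g, Cod X n g :=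
    REIn.ex (S := fun n g => Cod X n g) (re_cod Computable.fst Computable.snd)
  refine h.of_eq fun n => ⟨fun ⟨g, hg⟩ => mem_FS_of hg, fun h => ?_⟩
  obtain ⟨g, -, hg⟩ := exists_cod h
  exact ⟨g, hg⟩

theorem re_not_FS : REIn X fun n : ℕ => n ∉ FS X := by
  have h : REIn X fun n : ℕ => ∀ g < 3 ^ (n + 1), ¬ Cod X n g :=
    REIn.all_lt (S := fun n g => ¬ Cod X n g) (re_not_cod Computable.fst Computable.snd)
      (c_pow3 (by fun_prop))
  refine h.of_eq fun n => ⟨fun h h' => ?_, fun h g _ hg => h (mem_FS_of hg)⟩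
  obtain ⟨g, hg1, hg2⟩ := exists_cod h'
  exact h g hg1 hg2

theorem zero_notMem_FS (h0 : 0 ∉ X) : 0 ∉ FS X := by
  rintro ⟨F, h1, h2, h3⟩
  obtain ⟨x, hx⟩ := h1
  have h4 : x = 0 := by
    have := Finset.sum_eq_zero_iff.1 h3 x hx
    exact this
  exact h0 (h4 ▸ h2 hx)

/-- The set of all finite sums of an infinite set, one colour: the hypotheses of the main
theorem. -/
theorem hyp_FS {c : ℕ → Bool} (hX : X.Infinite) (h0 : 0 ∉ X)
    (hc : ∃ i, ∀ F : Finset ℕ, (F : Set ℕ) ⊆ X → F.Nonempty → c (∑ n ∈ F, n) = i)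
    {k : ℕ} (hk : 0 < k) :
    ∃ V : Ultrafilter ℕ, FarU V ∧ (∀ N, ∃ x ∈ FS X, 3 ^ N ∣ x) ∧
      ∃ i, ∀ h ∈ FS X, Sm V k (fun l => c (h + l) = i) := by
  obtain ⟨U, hU, hUX⟩ := exists_idem hX
    (fun x hx => Nat.pos_of_ne_zero fun h => h0 (h ▸ hx))
  refine ⟨U, farU_idem hU, fun N => ?_, ?_⟩
  · obtain ⟨n, ⟨G, g1, g2, -, rfl⟩, hn⟩ := ((hUX ∅).and (hU.dvd (N := 3 ^ N) (by positivity))).exists
    exact ⟨_, ⟨G, g1, g2, rfl⟩, hn⟩
  · obtain ⟨i, hi⟩ := hc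
    refine ⟨i, ?_⟩
    rintro h ⟨F, f1, f2, rfl⟩
    rw [Sm_idem hU hk]
    filter_upwards [hUX F] with l hl
    obtain ⟨G, g1, g2, g3, rfl⟩ := hl
    rw [← Finset.sum_union g3]
    refine hi _ ?_ (f1.mono Finset.subset_union_left)
    rw [Finset.coe_union]
    exact Set.union_subset f2 g2

/-- Sums of exactly `k + 1` elements, one colour: the hypotheses of the main theorem. -/
theorem hyp_eq {c : ℕ → Bool} (h0 : 0 ∉ X) (hX : ∀ N, ∃ x ∈ X, 3 ^ N ∣ x) {k : ℕ}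
    (hc : ∃ i, ∀ F : Finset ℕ, (F : Set ℕ) ⊆ X → F.card = k + 1 → c (∑ n ∈ F, n) = i) :
    ∃ V : Ultrafilter ℕ, FarU V ∧ ∃ i, ∀ h ∈ X, Sm V k (fun l => c (h + l) = i) := by
  obtain ⟨V, hV, hVX⟩ := exists_farU h0 hX
  refine ⟨V, hV, ?_⟩
  obtain ⟨i, hi⟩ := hc
  refine ⟨i, fun h hh => ?_⟩
  refine Sm_mono ?_ (Sm_mem hV hVX (k := k) h)
  rintro l ⟨G, g1, g2, g3, rfl⟩
  have h4 : h ∉ G := fun h' => absurd (g3 h h') (lt_irrefl _)
  have e := Finset.sum_insert (f := fun x : ℕ => x) h4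
  rw [← e]
  refine hi _ ?_ ?_
  · rw [Finset.coe_insert]
    exact Set.insert_subset hh g1
  · rw [Finset.card_insert_of_notMem h4, g2]

/-- The set of finite sums of a `Σ⁰₄` set is `Σ⁰₄`. -/
def RFS (R : ℕ → ℕ → ℕ → ℕ → ℕ → Bool) (n a b t u : ℕ) : Bool :=
  (decide (0 < (L a.unpair.1).length) && decide ((L a.unpair.1).sum = n)) &&
    (!(decide (b.unpair.1 ∈ L a.unpair.1)) ||
      R b.unpair.1 (Pool.Agent.H19R3.DNC.el a.unpair.2 b.unpair.1) b.unpair.2 t u)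

theorem c_RFS {R : ℕ → ℕ → ℕ → ℕ → ℕ → Bool}
    (hR : Computable fun x : ℕ × ℕ × ℕ × ℕ × ℕ =>
      R x.1 x.2.1 x.2.2.1 x.2.2.2.1 x.2.2.2.2) :
    Computable fun x : ℕ × ℕ × ℕ × ℕ × ℕ =>
      RFS R x.1 x.2.1 x.2.2.1 x.2.2.2.1 x.2.2.2.2 := by
  unfold RFS
  have h0 : Computable fun x : ℕ × ℕ × ℕ × ℕ × ℕ => L x.2.1.unpair.1 := by fun_prop
  have h1 : Computable fun x : ℕ × ℕ × ℕ × ℕ × ℕ =>
      R x.2.2.1.unpair.1 (Pool.Agent.H19R3.DNC.el x.2.1.unpair.2 x.2.2.1.unpair.1)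
        x.2.2.1.unpair.2 x.2.2.2.1 x.2.2.2.2 := by
    refine hR.comp (g := fun x : ℕ × ℕ × ℕ × ℕ × ℕ => (x.2.2.1.unpair.1,
      Pool.Agent.H19R3.DNC.el x.2.1.unpair.2 x.2.2.1.unpair.1,
        x.2.2.1.unpair.2, x.2.2.2.1, x.2.2.2.2)) ?_
    refine Computable.pair (by fun_prop) (Computable.pair ?_ (by fun_prop))
    exact Pool.Agent.H19R3.DNC.c_el (by fun_prop) (by fun_prop)
  exact cand (cand (c_dlt (by fun_prop) (by fun_prop)) (c_deq (c_sum h0) (by fun_prop)))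
    (cor (cnot (c_mem (by fun_prop) h0)) h1)

theorem FS_sig4 {R : ℕ → ℕ → ℕ → ℕ → ℕ → Bool}
    (h : X = {n | ∃ a, ∀ b, ∃ t, ∀ u, R n a b t u = true}) :
    FS X = {n | ∃ a, ∀ b, ∃ t, ∀ u, RFS R n a b t u = true} := by
  have hX : ∀ n, n ∈ X ↔ ∃ a, ∀ b, ∃ t, ∀ u, R n a b t u = true := fun n => by
    conv_lhs => rw [h]
    rfl
  ext n
  show n ∈ FS X ↔ ∃ a, ∀ b, ∃ t, ∀ u, RFS R n a b t u = true
  constructor
  · intro hn
    obtain ⟨g, -, g1, g2, g3⟩ := exists_cod hn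
    have h1 : ∀ x ∈ L g, ∃ a, ∀ b, ∃ t, ∀ u, R x a b t u = true := fun x hx => (hX x).1 (g2 x hx)
    choose! w hw using h1
    refine ⟨Nat.pair g (encode ((List.range g).map w)), fun b => ?_⟩
    simp only [RFS, Nat.unpair_pair]
    by_cases hb : b.unpair.1 ∈ L g
    · obtain ⟨t, ht⟩ := hw _ hb b.unpair.2
      have h2 : Pool.Agent.H19R3.DNC.el (encode ((List.range g).map w)) b.unpair.1 =
          w b.unpair.1 := by
        have h3 : b.unpair.1 < g := dg_lt (mem_L.1 hb)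
        unfold Pool.Agent.H19R3.DNC.el Pool.Agent.H19R3.DNC.dl
        simp only [encodek]
        simp [List.getElem?_range h3]
      refine ⟨t, fun u => ?_⟩
      rw [h2, ht u]
      simp [g1, g3]
    · exact ⟨0, fun u => by simp [hb, g1, g3]⟩
  · rintro ⟨a, ha⟩
    have h1 : ∀ b : ℕ, ∃ t, ∀ u, (0 < (L a.unpair.1).length ∧ (L a.unpair.1).sum = n) ∧
        (b.unpair.1 ∉ L a.unpair.1 ∨ R b.unpair.1
          (Pool.Agent.H19R3.DNC.el a.unpair.2 b.unpair.1) b.unpair.2 t u = true) := by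
      intro b
      obtain ⟨t, ht⟩ := ha b
      refine ⟨t, fun u => ?_⟩
      have := ht u
      unfold RFS at this
      simpa using this
    obtain ⟨t0, ht0⟩ := h1 0
    refine mem_FS_of (g := a.unpair.1) ⟨(ht0 0).1.1, fun x hx => ?_, (ht0 0).1.2⟩
    rw [hX]
    refine ⟨Pool.Agent.H19R3.DNC.el a.unpair.2 x, fun b => ?_⟩
    obtain ⟨t, ht⟩ := h1 (Nat.pair x b)
    refine ⟨t, fun u => ?_⟩
    have := (ht u).2
    simp only [Nat.unpair_pair] at this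
    exact this.resolve_left (fun h' => h' hx)

end Pool.Agent.TH747.HS
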