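import Pool.Agent.TH747.HS.Typ
import Pool.Agent.TH747.HS.DiagK

/-! A long chain inside a projection of the facts contradicts the diagonal colouring. -/

namespace Pool.Agent.TH747.HS

open Encodable Filter Pool.Agent.H645R2.HT Pool.Agent.Helper446 Pool.Agent.Helper446.RE

variable {D : ℕ → ℕ → Bool} {ψ : ℕ → Prop}

theorem ph_le (p : ℕ) : ph p ≤ p := le_trans (Nat.unpair_left_le _) (Nat.unpair_left_le _)
theorem pk_le (p : ℕ) : pk p ≤ p := le_trans (Nat.unpair_left_le _) (Nat.unpair_right_le _)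

theorem no_chain {k : ℕ} (hk : 0 < k) {V : Ultrafilter ℕ} (hV : FarU V)
    (hlim : ∀ z, Sm V k (fun l => (D z l = true ↔ ψ z))) {Y : Set ℕ} (hp : 0 ∉ Y)
    (hc : ∃ i, ∀ h ∈ Y, Sm V k (fun l => col D (h + l) = i)) (e : ℕ)
    (hsub : ∀ x, (∃ a, ψ (Nat.pair e (Nat.pair x a))) → x ∈ Y) (f : ℕ → ℕ)
    (hf : ∀ i < 4 * e + 2, ∃ a, ψ (Nat.pair e (Nat.pair (f i) a)))
    (hs : ∀ i, i + 1 < 4 * e + 2 → Sep (f i) (f (i + 1))) : False := by
  classical
  have hfY : ∀ i < 4 * e + 2, f i ∈ Y := fun i hi => hsub _ (hf i hi)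
  have hpos : ∀ x ∈ Y, 0 < x := fun x hx => Nat.pos_of_ne_zero fun h => hp (h ▸ hx)
  have hlt : ∀ j, ∀ i, i < j → j < 4 * e + 2 → mu (f i) < mu (f j) := by
    intro j
    induction j with
    | zero => intro i hi; omega
    | succ j ih =>
      intro i hi hj
      have h1 : mu (f j) < la (f (j + 1)) := hs j (by omega)
      have h2 := la_le_mu (hpos _ (hfY (j + 1) hj))
      rcases Nat.lt_succ_iff_lt_or_eq.1 hi with h | h
      · have := ih i h (by omega)
        omega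
      · rw [h]; omega
  have hinj : ∀ i < 4 * e + 2, ∀ j < 4 * e + 2, mu (f i) = mu (f j) → i = j := by
    intro i hi j hj hij
    rcases Nat.lt_trichotomy i j with h | h | h
    · have := hlt j i h hj; omega
    · exact h
    · have := hlt i j h hi; omega
  choose! w hw using hf
  let cc : ℕ → ℕ := fun i => Nat.pair (Nat.pair (f (2 * i)) (w (2 * i)))
    (Nat.pair (f (2 * i + 1)) (w (2 * i + 1)))
  -- a bound for the codes
  obtain ⟨N, hN⟩ : ∃ N, ∀ i ≤ 2 * e, cc i ≤ N ∧ mu (f (2 * i + 1)) ≤ N := by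
    refine ⟨(Finset.range (2 * e + 1)).sup (fun i => max (cc i) (mu (f (2 * i + 1)))),
      fun i hi => ?_⟩
    have h5 : i ∈ Finset.range (2 * e + 1) := Finset.mem_range.2 (Nat.lt_succ_of_le hi)
    have h6 := Finset.le_sup (f := fun i => max (cc i) (mu (f (2 * i + 1)))) h5
    exact ⟨le_trans (le_max_left _ _) h6, le_trans (le_max_right _ _) h6⟩
  -- a bound for the relevant facts
  obtain ⟨Z, hZ⟩ : ∃ Z, ∀ p ≤ N, Nat.pair e (Nat.pair (ph p) (pa p)) < Z ∧
      Nat.pair e (Nat.pair (pk p) (pb p)) < Z := by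
    refine ⟨(Finset.range (N + 1)).sup (fun p => max (Nat.pair e (Nat.pair (ph p) (pa p)))
      (Nat.pair e (Nat.pair (pk p) (pb p)))) + 1, fun p hp => ?_⟩
    have h5 : p ∈ Finset.range (N + 1) := Finset.mem_range.2 (Nat.lt_succ_of_le hp)
    have h6 := Finset.le_sup (f := fun p => max (Nat.pair e (Nat.pair (ph p) (pa p)))
      (Nat.pair e (Nat.pair (pk p) (pb p)))) h5
    exact ⟨Nat.lt_succ_of_le (le_trans (le_max_left _ _) h6),
      Nat.lt_succ_of_le (le_trans (le_max_right _ _) h6)⟩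
  obtain ⟨i0, hi0⟩ := hc
  obtain ⟨l, ⟨⟨hl0, hl1⟩, hl2⟩, hl3⟩ := Sm_exists (Sm_and (Sm_and (Sm_far hV hk (max N e))
    (Sm_finset (Finset.range Z) (P := fun z l => (D z l = true ↔ ψ z)) fun z _ => hlim z))
    (Sm_finset ((Finset.range (N + 1)).filter (· ∈ Y))
      (P := fun h l => col D (h + l) = i0) fun h hh => hi0 h (Finset.mem_filter.1 hh).2))
  have hl4 : ∀ h ≤ N, h ∈ Y → col D (h + l) = i0 := fun h hh hY =>
    hl3 h (Finset.mem_filter.2 ⟨Finset.mem_range.2 (by omega), hY⟩)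
  have hD1 : ∀ p ≤ N, (D (Nat.pair e (Nat.pair (ph p) (pa p))) l = true ↔
      ψ (Nat.pair e (Nat.pair (ph p) (pa p)))) := fun p hp =>
    hl2 _ (Finset.mem_range.2 (hZ p hp).1)
  have hD2 : ∀ p ≤ N, (D (Nat.pair e (Nat.pair (pk p) (pb p))) l = true ↔
      ψ (Nat.pair e (Nat.pair (pk p) (pb p)))) := fun p hp =>
    hl2 _ (Finset.mem_range.2 (hZ p hp).2)
  -- some candidate of the chain is available
  obtain ⟨i, hi, hit⟩ : ∃ i ≤ 2 * e, mu (f (2 * i)) ∉ TT D l e ∧ mu (f (2 * i + 1)) ∉ TT D l e := by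
    by_contra hcon
    push Not at hcon
    let t : ℕ → ℕ := fun i => if mu (f (2 * i)) ∈ TT D l e then 2 * i else 2 * i + 1
    have ht : ∀ i ≤ 2 * e, mu (f (t i)) ∈ TT D l e ∧ (t i = 2 * i ∨ t i = 2 * i + 1) := by
      intro i hi
      by_cases h : mu (f (2 * i)) ∈ TT D l e
      · simp only [t, if_pos h]
        exact ⟨h, by simp⟩
      · simp only [t, if_neg h]
        exact ⟨hcon i hi h, by simp⟩
    have h5 : (Finset.range (2 * e + 1)).image (fun i => mu (f (t i))) ⊆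
        (TT D l e).toFinset := by
      intro y hy
      obtain ⟨i, hi, rfl⟩ := Finset.mem_image.1 hy
      rw [List.mem_toFinset]
      exact (ht i (by have := Finset.mem_range.1 hi; omega)).1
    have h6 := Finset.card_le_card h5
    rw [Finset.card_image_of_injOn, Finset.card_range] at h6
    · have h7 := List.toFinset_card_le (TT D l e)
      have h8 := TT_length (D := D) (l := l) (e := e)
      omega
    · intro i hi j hj hij
      have hi' := Finset.mem_range.1 (Finset.mem_coe.1 hi)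
      have hj' := Finset.mem_range.1 (Finset.mem_coe.1 hj)
      have h1 := (ht i (by omega)).2
      have h2 := (ht j (by omega)).2
      have h3 := hinj (t i) (by omega) (t j) (by omega) hij
      omega
  have htst : tst D e l (TT D l e) (cc i) = true := by
    rw [tst_iff]
    have h1 := (hD1 (cc i) (hN i hi).1).2 (by
      simp only [ph, pa, cc, Nat.unpair_pair]
      exact hw _ (by omega))
    have h2 := (hD2 (cc i) (hN i hi).1).2 (by
      simp only [pk, pb, cc, Nat.unpair_pair]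
      exact hw _ (by omega))
    refine ⟨h1, h2, ?_⟩
    simp only [ph, pk, cc, Nat.unpair_pair]
    refine ⟨hpos _ (hfY _ (by omega)), hs _ (by omega), ?_, hit.1, hit.2⟩
    have := (hN i hi).2
    omega
  obtain ⟨h3, h4, -⟩ := lst_lt_of (q := tst D e l (TT D l e)) (n := la l) (i := cc i)
    (by have := (hN i hi).1; omega) htst
  change pick D l e ≤ cc i at h3
  change pick D l e < la l at h4
  have hne := col_ne hl0 (show e < la l by omega) h4
  have ht := tst_iff.1 (pick_tst h4)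
  have hpN : pick D l e ≤ N := le_trans h3 (hN i hi).1
  have hhY : ph (pick D l e) ∈ Y := hsub _ ⟨_, (hD1 _ hpN).1 ht.1⟩
  have hkY : pk (pick D l e) ∈ Y := hsub _ ⟨_, (hD2 _ hpN).1 ht.2.1⟩
  apply hne
  rw [hl4 _ (le_trans (ph_le _) hpN) hhY, hl4 _ (le_trans (pk_le _) hpN) hkY]

/-- Far elements of a set. -/
theorem exists_next {Y : Set ℕ} (hp : 0 ∉ Y) (hY : ∀ N, ∃ x ∈ Y, 3 ^ N ∣ x) (N : ℕ) :
    ∃ x ∈ Y, N < la x := by
  obtain ⟨x, hx, hd⟩ := hY (N + 1)
  have h0 : 0 < x := Nat.pos_of_ne_zero fun h => hp (h ▸ hx)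
  exact ⟨x, hx, Pool.Agent.TH747.HT.le_la_of_dvd h0 hd⟩

/-- Chains. -/
theorem exists_chain {Y : Set ℕ} (hp : 0 ∉ Y) (hY : ∀ N, ∃ x ∈ Y, 3 ^ N ∣ x) :
    ∃ f : ℕ → ℕ, (∀ i, f i ∈ Y) ∧ ∀ i, Sep (f i) (f (i + 1)) := by
  choose g hg1 hg2 using exists_next hp hY
  refine ⟨fun n => Nat.rec (g 0) (fun _ r => g (mu r)) n, fun i => ?_, fun i => ?_⟩
  · cases i with
    | zero => exact hg1 _
    | succ i => exact hg1 _
  · exact hg2 _

/-- The set of sums is not a projection of `ψ`. -/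
theorem no_solution {k : ℕ} (hk : 0 < k) {V : Ultrafilter ℕ} (hV : FarU V)
    (hlim : ∀ z, Sm V k (fun l => (D z l = true ↔ ψ z))) {Y : Set ℕ} (hp : 0 ∉ Y)
    (hY : ∀ N, ∃ x ∈ Y, 3 ^ N ∣ x)
    (hc : ∃ i, ∀ h ∈ Y, Sm V k (fun l => col D (h + l) = i)) (e : ℕ)
    (hYe : ∀ x, x ∈ Y ↔ ∃ a, ψ (Nat.pair e (Nat.pair x a))) : False := by
  obtain ⟨f, hf1, hf2⟩ := exists_chain hp hY
  exact no_chain hk hV hlim hp hc e (fun x hx => (hYe x).2 hx) f
    (fun i _ => (hYe _).1 (hf1 i)) (fun i _ => hf2 i)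

end Pool.Agent.TH747.HS
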