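import Pool.Agent.TH747.HT.Clus

/-! Typical sums of exactly `k` elements along an ultrafilter which converges to `0` in the
ternary integers, and the number of clusters of such a sum. -/

namespace Pool.Agent.TH747.HS

open Filter Pool.Agent.H645R2.HT Pool.Agent.TH747.HT

/-- Ultrafilters all of whose typical elements are divisible by a large power of `3`. -/
def FarU (V : Ultrafilter ℕ) : Prop := ∀ N, ∀ᶠ n in (V : Filter ℕ), 0 < n ∧ N < la n

/-- Typical sums of `k` elements. -/
def Sm (V : Ultrafilter ℕ) : ℕ → (ℕ → Prop) → Prop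
  | 0, P => P 0
  | k + 1, P => ∀ᶠ a in (V : Filter ℕ), Sm V k (fun b => P (a + b))

variable {V : Ultrafilter ℕ}

theorem Sm_mono {k : ℕ} : ∀ {P Q : ℕ → Prop}, (∀ n, P n → Q n) → Sm V k P → Sm V k Q := by
  induction k with
  | zero => intro P Q h hP; exact h 0 hP
  | succ k ih =>
    intro P Q h hP
    exact Eventually.mono (p := fun a => Sm V k fun b => P (a + b)) hP
      fun a ha => ih (fun n hn => h _ hn) ha

theorem Sm_and {k : ℕ} : ∀ {P Q : ℕ → Prop}, Sm V k P → Sm V k Q →
    Sm V k (fun n => P n ∧ Q n) := by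
  induction k with
  | zero => intro P Q h hP; exact ⟨h, hP⟩
  | succ k ih =>
    intro P Q h hP
    exact Eventually.mono (Eventually.and (p := fun a => Sm V k fun b => P (a + b))
      (q := fun a => Sm V k fun b => Q (a + b)) h hP) fun a ha => ih ha.1 ha.2

theorem Sm_all {k : ℕ} {P : ℕ → Prop} (h : ∀ n, P n) : Sm V k P := by
  induction k generalizing P with
  | zero => exact h 0
  | succ k ih => exact Eventually.of_forall fun a => ih fun b => h _

theorem Sm_finset {k : ℕ} {α : Type*} (S : Finset α) {P : α → ℕ → Prop}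
    (h : ∀ a ∈ S, Sm V k (P a)) : Sm V k (fun n => ∀ a ∈ S, P a n) := by
  classical
  induction S using Finset.induction_on with
  | empty => exact Sm_all (by simp)
  | insert a S ha ih =>
    have h1 := h a (Finset.mem_insert_self _ _)
    have h2 := ih fun b hb => h b (Finset.mem_insert_of_mem hb)
    refine Sm_mono ?_ (Sm_and h1 h2)
    rintro n ⟨h3, h4⟩ b hb
    rcases Finset.mem_insert.1 hb with rfl | hb
    · exact h3
    · exact h4 b hb

theorem Sm_exists {k : ℕ} {P : ℕ → Prop} (h : Sm V k P) : ∃ n, P n := by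
  induction k generalizing P with
  | zero => exact ⟨0, h⟩
  | succ k ih =>
    obtain ⟨a, ha⟩ := Eventually.exists (p := fun a => Sm V k fun b => P (a + b)) h
    obtain ⟨b, hb⟩ := ih ha
    exact ⟨_, hb⟩

theorem Sm_not {k : ℕ} {P : ℕ → Prop} (h : ¬ Sm V k P) : Sm V k (fun n => ¬ P n) := by
  induction k generalizing P with
  | zero => exact h
  | succ k ih =>
    have h1 : ∀ᶠ a in (V : Filter ℕ), ¬ Sm V k (fun b => P (a + b)) :=
      Ultrafilter.eventually_not.2 h
    exact Eventually.mono h1 fun a ha => ih ha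

/-- Typical sums have a large lowest position. -/
theorem Sm_far (hV : FarU V) {k : ℕ} (hk : 0 < k) (N : ℕ) :
    Sm V k (fun n => 0 < n ∧ N < la n) := by
  obtain ⟨k, rfl⟩ := Nat.exists_eq_add_of_lt hk
  rw [zero_add]
  clear hk
  induction k generalizing N with
  | zero =>
    refine Eventually.mono (hV N) fun a ha => ?_
    simpa [Sm] using ha
  | succ k ih =>
    refine Eventually.mono (hV N) fun a ha => ?_
    refine Sm_mono ?_ (ih (mu a))
    rintro b ⟨hb0, hb⟩
    have hs : Sep a b := hb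
    rw [la_add ha.1 hs]
    exact ⟨by omega, ha.2⟩

/-- Typical sums are sums of `k` distinct large elements of every large set. -/
theorem Sm_mem (hV : FarU V) {X : Set ℕ} (hX : ∀ᶠ n in (V : Filter ℕ), n ∈ X) {k : ℕ} (N : ℕ) :
    Sm V k (fun n => ∃ G : Finset ℕ, (G : Set ℕ) ⊆ X ∧ G.card = k ∧ (∀ x ∈ G, N < x) ∧
      n = ∑ x ∈ G, x) := by
  induction k generalizing N with
  | zero => exact ⟨∅, by simp, by simp, by simp, by simp⟩
  | succ k ih =>
    refine Eventually.mono (hX.and (hV N)) fun a ha => ?_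
    refine Sm_mono ?_ (ih (max N a))
    rintro b ⟨G, h1, h2, h3, rfl⟩
    have h4 : a ∉ G := fun h => by have := h3 a h; omega
    refine ⟨insert a G, ?_, ?_, ?_, ?_⟩
    · rw [Finset.coe_insert]
      exact Set.insert_subset ha.1 h1
    · rw [Finset.card_insert_of_notMem h4, h2]
    · intro x hx
      rcases Finset.mem_insert.1 hx with rfl | hx
      · have h5 := dg_lt (mem_L.1 (la_mem ha.2.1))
        have h6 := ha.2.2
        omega
      · have := h3 x hx
        omega
    · rw [Finset.sum_insert h4]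

/-- A single element is a typical sum of one element. -/
theorem Sm_one {P : ℕ → Prop} : Sm V 1 P ↔ ∀ᶠ n in (V : Filter ℕ), P n := by
  simp [Sm]

/-- Idempotent ultrafilters: typical sums are typical elements. -/
theorem Sm_idem (hU : Idem V) {k : ℕ} (hk : 0 < k) {P : ℕ → Prop} :
    Sm V k P ↔ ∀ᶠ n in (V : Filter ℕ), P n := by
  obtain ⟨k, rfl⟩ := Nat.exists_eq_add_of_lt hk
  rw [zero_add]
  clear hk
  induction k generalizing P with
  | zero => exact Sm_one
  | succ k ih =>
    change (∀ᶠ a in (V : Filter ℕ), Sm V (k + 1) (fun b => P (a + b))) ↔ _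
    simp only [ih]
    exact hU.1 P

theorem farU_idem (hU : Idem V) : FarU V := hU.far

/-- A far ultrafilter concentrated on a set which contains multiples of all powers of `3`. -/
theorem exists_farU {X : Set ℕ} (hp : 0 ∉ X) (hX : ∀ N, ∃ x ∈ X, 3 ^ N ∣ x) :
    ∃ V : Ultrafilter ℕ, FarU V ∧ ∀ᶠ n in (V : Filter ℕ), n ∈ X := by
  let l : Filter ℕ := ⨅ N : ℕ, 𝓟 {x | x ∈ X ∧ 3 ^ N ∣ x}
  have hl : l.NeBot := by
    refine iInf_neBot_of_directed' ?_ ?_
    · intro M N
      refine ⟨max M N, ?_, ?_⟩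
      · simp only [ge_iff_le, le_principal_iff, mem_principal]
        exact fun x hx => ⟨hx.1, dvd_trans (Nat.pow_dvd_pow 3 (le_max_left _ _)) hx.2⟩
      · simp only [ge_iff_le, le_principal_iff, mem_principal]
        exact fun x hx => ⟨hx.1, dvd_trans (Nat.pow_dvd_pow 3 (le_max_right _ _)) hx.2⟩
    · intro N
      rw [principal_neBot_iff]
      obtain ⟨x, hx, hN⟩ := hX N
      exact ⟨x, hx, hN⟩
  refine ⟨Ultrafilter.of l, fun N => ?_, ?_⟩
  · have h1 : ∀ᶠ x in l, x ∈ X ∧ 3 ^ (N + 1) ∣ x :=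
      mem_iInf_of_mem (N + 1) (mem_principal_self _)
    refine Eventually.mono (Ultrafilter.of_le l h1) ?_
    rintro x ⟨hx, hN⟩
    have h0 : 0 < x := Nat.pos_of_ne_zero fun h => hp (h ▸ hx)
    exact ⟨h0, le_la_of_dvd h0 hN⟩
  · have h1 : ∀ᶠ x in l, x ∈ X ∧ 3 ^ 0 ∣ x := mem_iInf_of_mem 0 (mem_principal_self _)
    exact Eventually.mono (Ultrafilter.of_le l h1) fun x hx => hx.1

end Pool.Agent.TH747.HS
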